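import Pool.Agent.Work.MP_db9399_sc.Interface

/-!
# MP_db9399, THEOREM SC, block HIT

Disjoint minimal critical sets; two typical vertices in each of them meet all critical sets.
-/

set_option autoImplicit false

namespace Pool.Agent.Work.MP_db9399_sc.helper59

open Finset Classical
open Pool.Agent.Work.MP_db9399_all (nb)
open Pool.Agent.Work.MP_db9399_sc

universe u

section
variable {V : Type u} [Fintype V]

theorem mem_nb (F : SimpleGraph V) (v w : V) : w ∈ nb F v ↔ F.Adj v w := by
  simp [nb]

theorem cut_sum (F : SimpleGraph V) (U C : Finset V) :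
    cut F U C = ∑ v ∈ C, ∑ w ∈ U \ C, (if F.Adj v w then 1 else 0) := by
  unfold cut
  refine Finset.sum_congr rfl (fun v _ => ?_)
  rw [← Finset.card_filter]
  congr 1
  ext w
  simp only [Finset.mem_inter, mem_nb, Finset.mem_filter]
  tauto

theorem cut_all (F : SimpleGraph V) (U C : Finset V) (hC : C ⊆ U) :
    cut F U C = ∑ v ∈ U, ∑ w ∈ U, (if v ∈ C ∧ w ∉ C ∧ F.Adj v w then 1 else 0) := by
  rw [cut_sum]
  have h1 : ∑ v ∈ C, ∑ w ∈ U, (if v ∈ C ∧ w ∉ C ∧ F.Adj v w then 1 else 0)
      = ∑ v ∈ U, ∑ w ∈ U, (if v ∈ C ∧ w ∉ C ∧ F.Adj v w then 1 else 0) := by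
    refine Finset.sum_subset hC (fun v _ hv => ?_)
    refine Finset.sum_eq_zero (fun w _ => ?_)
    simp [hv]
  rw [← h1]
  refine Finset.sum_congr rfl (fun v hv => ?_)
  have h2 : ∑ w ∈ U \ C, (if v ∈ C ∧ w ∉ C ∧ F.Adj v w then 1 else 0)
      = ∑ w ∈ U, (if v ∈ C ∧ w ∉ C ∧ F.Adj v w then 1 else 0) := by
    refine Finset.sum_subset Finset.sdiff_subset (fun w hw hw' => ?_)
    have : w ∈ C := by
      by_contra hc
      exact hw' (Finset.mem_sdiff.mpr ⟨hw, hc⟩)
    simp [this]
  rw [← h2]
  refine Finset.sum_congr rfl (fun w hw => ?_)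
  have hw2 := (Finset.mem_sdiff.mp hw).2
  simp [hv, hw2]

theorem two_cut (F : SimpleGraph V) (U C : Finset V) (hC : C ⊆ U) :
    2 * cut F U C = ∑ v ∈ U, ∑ w ∈ U,
      (if F.Adj v w ∧ ¬ (v ∈ C ↔ w ∈ C) then 1 else 0) := by
  have h1 := cut_all F U C hC
  have h2 : cut F U C = ∑ v ∈ U, ∑ w ∈ U, (if w ∈ C ∧ v ∉ C ∧ F.Adj w v then 1 else 0) := by
    rw [h1, Finset.sum_comm]
  have h3 : 2 * cut F U C = ∑ v ∈ U, ∑ w ∈ U, ((if v ∈ C ∧ w ∉ C ∧ F.Adj v w then 1 else 0)
      + (if w ∈ C ∧ v ∉ C ∧ F.Adj w v then 1 else 0)) := by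
    rw [two_mul]
    nth_rewrite 1 [h1]
    rw [h2, ← Finset.sum_add_distrib]
    refine Finset.sum_congr rfl (fun v _ => ?_)
    rw [← Finset.sum_add_distrib]
  rw [h3]
  refine Finset.sum_congr rfl (fun v _ => ?_)
  refine Finset.sum_congr rfl (fun w _ => ?_)
  by_cases a : F.Adj v w <;> by_cases b : v ∈ C <;> by_cases c : w ∈ C <;>
    simp [a, b, c, F.adj_comm w v]

/-- posimodularity -/
theorem posi (F : SimpleGraph V) (U A B : Finset V) (hA : A ⊆ U) (hB : B ⊆ U) :
    cut F U (A \ B) + cut F U (B \ A) ≤ cut F U A + cut F U B := by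
  have h1 := two_cut F U (A \ B) (Finset.sdiff_subset.trans hA)
  have h2 := two_cut F U (B \ A) (Finset.sdiff_subset.trans hB)
  have h3 := two_cut F U A hA
  have h4 := two_cut F U B hB
  have h : 2 * cut F U (A \ B) + 2 * cut F U (B \ A) ≤ 2 * cut F U A + 2 * cut F U B := by
    rw [h1, h2, h3, h4, ← Finset.sum_add_distrib, ← Finset.sum_add_distrib]
    refine Finset.sum_le_sum (fun v _ => ?_)
    rw [← Finset.sum_add_distrib, ← Finset.sum_add_distrib]
    refine Finset.sum_le_sum (fun w _ => ?_)
    by_cases a : F.Adj v w <;> by_cases b : v ∈ A <;> by_cases c : w ∈ A <;>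
      by_cases e : v ∈ B <;> by_cases f : w ∈ B <;>
      simp [a, b, c, e, f]
  omega

theorem small (G F : SimpleGraph V) (d : ℕ) (U L : Finset V) (E : Env G F d U L)
    (A : Finset V) (hA : A ⊆ L) :
    999 * d * A.card ≤ 1000 * cut F U A + 1000 * (A.card * A.card) := by
  have h1 : ∀ v ∈ A, 999 * d ≤ 1000 * (nb F v ∩ (U \ A)).card + 1000 * A.card := by
    intro v hv
    have h2 := E.big v (hA hv)
    have h3 : (nb F v ∩ U).card ≤ (nb F v ∩ (U \ A)).card + A.card := by
      have : nb F v ∩ U ⊆ (nb F v ∩ (U \ A)) ∪ A := by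
        intro w hw
        simp only [Finset.mem_union, Finset.mem_inter, Finset.mem_sdiff] at hw ⊢
        tauto
      exact (Finset.card_le_card this).trans (Finset.card_union_le _ _)
    omega
  have h4 := Finset.sum_le_sum h1
  rw [Finset.sum_const, Finset.sum_add_distrib, ← Finset.mul_sum, Finset.sum_const] at h4
  simp only [smul_eq_mul] at h4
  unfold cut
  nlinarith [h4]

theorem small4 (G F : SimpleGraph V) (d : ℕ) (U L : Finset V) (E : Env G F d U L)
    (A : Finset V) (hA : A ⊆ L) (hd : 100 ≤ d) (h4 : 4 ≤ A.card) (h2 : 2 * A.card < d) :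
    14 * d ≤ 5 * cut F U A := by
  have h := small G F d U L E A hA
  zify at h h4 h2 hd ⊢
  nlinarith [mul_nonneg (sub_nonneg.mpr h4) (sub_nonneg.mpr h2.le),
    mul_nonneg (sub_nonneg.mpr h4) (sub_nonneg.mpr hd)]

theorem small2 (G F : SimpleGraph V) (d : ℕ) (U L : Finset V) (E : Env G F d U L)
    (A : Finset V) (hA : A ⊆ L) (hd : 100 ≤ d) (h4 : 2 ≤ A.card) (h2 : 2 * A.card < d) :
    7 * d ≤ 5 * cut F U A := by
  have h := small G F d U L E A hA
  zify at h h4 h2 hd ⊢
  nlinarith [mul_nonneg (sub_nonneg.mpr h4) (sub_nonneg.mpr h2.le),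
    mul_nonneg (sub_nonneg.mpr h4) (sub_nonneg.mpr hd)]

/-- the greedy family -/
theorem greedy (F : SimpleGraph V) (d : ℕ) (U L : Finset V) (hd : 1 ≤ d) :
    ∀ (n : ℕ) (R : Finset V), R.card = n → R ⊆ L → ∃ Cs : Finset (Finset V),
      (∀ C ∈ Cs, C ⊆ R ∧ Crit F d U L C ∧ ∀ A ⊆ C, A ≠ C → ¬ Crit F d U L A) ∧
      (∀ C ∈ Cs, ∀ C' ∈ Cs, C ≠ C' → Disjoint C C') ∧
      ∀ C ⊆ R, Crit F d U L C → ∃ C1 ∈ Cs, (C ∩ C1).Nonempty ∧ C1.card ≤ C.card := by
  intro n
  induction n using Nat.strong_induction_on with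
  | _ n ih =>
    intro R hR hRL
    by_cases hex : ∃ C ⊆ R, Crit F d U L C
    · obtain ⟨C1, h1, h2⟩ := Finset.exists_min_image
        (R.powerset.filter (fun C => Crit F d U L C)) (fun C => C.card) (by
          obtain ⟨C, a, b⟩ := hex
          exact ⟨C, Finset.mem_filter.mpr ⟨Finset.mem_powerset.mpr a, b⟩⟩)
      obtain ⟨h1a, h1b⟩ := Finset.mem_filter.mp h1
      have h1c := Finset.mem_powerset.mp h1a
      have hne : 1 ≤ C1.card := by
        have := h1b.2.1
        omega
      have hcard : (R \ C1).card < n := by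
        have := Finset.card_sdiff_add_card_eq_card h1c
        omega
      obtain ⟨Cs, a, b, c⟩ := ih _ hcard (R \ C1) rfl (Finset.sdiff_subset.trans hRL)
      refine ⟨insert C1 Cs, ?_, ?_, ?_⟩
      · intro C hC
        rcases Finset.mem_insert.mp hC with rfl | hC
        · refine ⟨h1c, h1b, fun A hA hne2 hcr => ?_⟩
          have h3 := h2 A (Finset.mem_filter.mpr
            ⟨Finset.mem_powerset.mpr (hA.trans h1c), hcr⟩)
          have h4 : A.card < C.card := Finset.card_lt_card
            (Finset.ssubset_iff_subset_ne.mpr ⟨hA, hne2⟩)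
          omega
        · obtain ⟨x, y, z⟩ := a C hC
          exact ⟨x.trans Finset.sdiff_subset, y, z⟩
      · intro C hC C' hC' hne2
        rcases Finset.mem_insert.mp hC with g1 | g1
        · rcases Finset.mem_insert.mp hC' with g2 | g2
          · exact absurd (g1.trans g2.symm) hne2
          · rw [g1]
            exact (Finset.disjoint_of_subset_left (a C' g2).1 Finset.sdiff_disjoint).symm
        · rcases Finset.mem_insert.mp hC' with g2 | g2
          · rw [g2]
            exact Finset.disjoint_of_subset_left (a C g1).1 Finset.sdiff_disjoint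
          · exact b C g1 C' g2 hne2
      · intro C hCR hcr
        by_cases hm : (C ∩ C1).Nonempty
        · refine ⟨C1, Finset.mem_insert_self _ _, hm, ?_⟩
          exact h2 C (Finset.mem_filter.mpr ⟨Finset.mem_powerset.mpr hCR, hcr⟩)
        · have hsub : C ⊆ R \ C1 := by
            intro v hv
            refine Finset.mem_sdiff.mpr ⟨hCR hv, fun hv1 => hm ⟨v, ?_⟩⟩
            exact Finset.mem_inter.mpr ⟨hv, hv1⟩
          obtain ⟨C2, x, y, z⟩ := c C hsub hcr
          exact ⟨C2, Finset.mem_insert_of_mem x, y, z⟩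
    · refine ⟨∅, by simp, by simp, fun C hC hcr => absurd ⟨C, hC, hcr⟩ hex⟩

/-- a minimal critical set is connected -/
theorem conn_of_min (G F : SimpleGraph V) (d : ℕ) (U L : Finset V) (E : Env G F d U L)
    (hd : 100 ≤ d) (C : Finset V) (hC : Crit F d U L C)
    (hmin : ∀ A ⊆ C, A ≠ C → ¬ Crit F d U L A) : Conn F C := by
  intro C1 hC1 hne hneq
  by_contra hno
  have hno1 : ∀ v ∈ C1, ∀ w ∈ C, w ∉ C1 → ¬ F.Adj v w := by
    intro v hv w hw hw1 hadj
    exact hno ⟨v, hv, w, hw, hw1, hadj⟩
  -- the cut of a part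
  have hpart : ∀ A ⊆ C, (∀ v ∈ A, ∀ w ∈ C, w ∉ A → ¬ F.Adj v w) →
      cut F U A ≤ cut F U C := by
    intro A hA hA2
    unfold cut
    calc ∑ v ∈ A, (nb F v ∩ (U \ A)).card ≤ ∑ v ∈ A, (nb F v ∩ (U \ C)).card := by
          refine Finset.sum_le_sum (fun v hv => Finset.card_le_card (fun w hw => ?_))
          simp only [Finset.mem_inter, Finset.mem_sdiff, mem_nb] at hw ⊢
          refine ⟨hw.1, hw.2.1, fun hwC => ?_⟩
          exact hA2 v hv w hwC hw.2.2 hw.1
      _ ≤ ∑ v ∈ C, (nb F v ∩ (U \ C)).card :=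
          Finset.sum_le_sum_of_subset hA
  have hbad : ∀ A ⊆ C, A ≠ C → (∀ v ∈ A, ∀ w ∈ C, w ∉ A → ¬ F.Adj v w) →
      C.card ≤ 2 * A.card → False := by
    intro A hA hAne hA2 hcard
    have h1 := hpart A hA hA2
    have h2 := hC.2.1
    have h3 := hC.2.2
    by_cases h4 : d ≤ 2 * A.card
    · exact hmin A hA hAne ⟨hA.trans hC.1, h4, by omega⟩
    · have h5 := small2 G F d U L E A (hA.trans hC.1) hd (by omega) (by omega)
      omega
  by_cases hc : C.card ≤ 2 * C1.card
  · exact hbad C1 hC1 hneq hno1 hc
  · have hcc := Finset.card_sdiff_add_card_eq_card hC1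
    refine hbad (C \ C1) Finset.sdiff_subset ?_ ?_ (by omega)
    · intro h
      obtain ⟨x, hx⟩ := hne
      have := hC1 hx
      rw [← h] at this
      exact (Finset.mem_sdiff.mp this).2 hx
    · intro v hv w hw hw1 hadj
      have hv' := Finset.mem_sdiff.mp hv
      have hw2 : w ∈ C1 := by
        by_contra hcon
        exact hw1 (Finset.mem_sdiff.mpr ⟨hw, hcon⟩)
      exact hno1 w hw2 v hv'.1 hv'.2 hadj.symm

theorem stmt_HIT : Stmt_HIT.{u} := by
  refine ⟨100, ?_⟩
  intro V _ G F d U L hd E
  obtain ⟨Cs, ha, hb, hc⟩ := greedy F d U L (by omega) L.card L rfl (Finset.Subset.refl _)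
  refine ⟨Cs, ⟨E, fun C hC => (ha C hC).2.1, fun C hC => ?_, hb⟩, ?_⟩
  · exact conn_of_min G F d U L E hd C (ha C hC).2.1 (ha C hC).2.2
  · intro O hO
    have key : ∀ (n : ℕ) (C : Finset V), C.card = n → Crit F d U L C → ∃ v ∈ C, v ∈ O := by
      intro n
      induction n using Nat.strong_induction_on with
      | _ n ih =>
        intro C hn hcr
        by_contra hno
        have hno' : ∀ v ∈ O, v ∉ C := fun v hv hvC => hno ⟨v, hvC, hv⟩
        obtain ⟨C1, hC1, hmeet, hle⟩ := hc C hcr.1 hcr
        obtain ⟨hC1L, hC1c, hC1m⟩ := ha C1 hC1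
        obtain ⟨z, hz, z', hz', hzz, hzt, hzt'⟩ := hO C1 hC1
        obtain ⟨x0, hx0⟩ := hmeet
        obtain ⟨hx0a, hx0b⟩ := Finset.mem_inter.mp hx0
        have hk1 := hC1c.2.1
        have hk2 := hC1c.2.2
        have hk3 := hcr.2.1
        have hk4 := hcr.2.2
        by_cases h3 : (C1 \ C).card ≤ 3
        · -- case (a)
          have hdeg : ∀ y, Typ F d U C1 y → 998 * d ≤ 1000 * (nb F y ∩ C).card + 3000 := by
            intro y hy
            have h5 := E.big y (hC1L hy.1)
            have h6 := hy.2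
            have h7 : (nb F y ∩ U).card ≤ (nb F y ∩ (U \ C1)).card + (nb F y ∩ C).card
                + (C1 \ C).card := by
              have : nb F y ∩ U ⊆ ((nb F y ∩ (U \ C1)) ∪ (nb F y ∩ C)) ∪ (C1 \ C) := by
                intro w hw
                simp only [Finset.mem_union, Finset.mem_inter, Finset.mem_sdiff] at hw ⊢
                tauto
              refine (Finset.card_le_card this).trans ?_
              refine (Finset.card_union_le _ _).trans ?_
              exact Nat.add_le_add_right (Finset.card_union_le _ _) _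
            omega
          have hz1 := hdeg z hzt
          have hz2 := hdeg z' hzt'
          have hzC : z ∉ C := hno' z hz
          have hzC' : z' ∉ C := hno' z' hz'
          have hzU : z ∈ U := E.LU (hC1L hzt.1)
          have hzU' : z' ∈ U := E.LU (hC1L hzt'.1)
          have hcount : (nb F z ∩ C).card + (nb F z' ∩ C).card ≤ cut F U C := by
            rw [cut_sum]
            have hsub : ({z, z'} : Finset V) ⊆ U \ C := by
              intro w hw
              rcases Finset.mem_insert.mp hw with rfl | hw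
              · exact Finset.mem_sdiff.mpr ⟨hzU, hzC⟩
              · rw [Finset.mem_singleton.mp hw]
                exact Finset.mem_sdiff.mpr ⟨hzU', hzC'⟩
            calc (nb F z ∩ C).card + (nb F z' ∩ C).card
                = ∑ v ∈ C, ∑ w ∈ ({z, z'} : Finset V), (if F.Adj v w then 1 else 0) := by
                  rw [Finset.sum_comm, Finset.sum_pair hzz, ← Finset.card_filter,
                    ← Finset.card_filter]
                  congr 2
                  · ext w
                    simp only [Finset.mem_inter, mem_nb, Finset.mem_filter, F.adj_comm z w]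
                    tauto
                  · ext w
                    simp only [Finset.mem_inter, mem_nb, Finset.mem_filter, F.adj_comm z' w]
                    tauto
              _ ≤ _ := Finset.sum_le_sum (fun v _ => Finset.sum_le_sum_of_subset hsub)
          omega
        · -- case (b)
          have hpos := posi F U C1 C ((hC1L).trans E.LU) (hcr.1.trans E.LU)
          have hne1 : C1 \ C ≠ C1 := by
            intro h
            rw [← h] at hx0b
            exact (Finset.mem_sdiff.mp hx0b).2 hx0a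
          have hnc : ¬ Crit F d U L (C1 \ C) := hC1m _ Finset.sdiff_subset hne1
          have hbig : d ≤ 2 * (C1 \ C).card := by
            by_contra hlt
            have h5 := small4 G F d U L E (C1 \ C) (Finset.sdiff_subset.trans hC1L) hd
              (by omega) (by omega)
            omega
          have hcut1 : 7 * d ≤ 5 * cut F U (C1 \ C) := by
            by_contra hlt
            exact hnc ⟨Finset.sdiff_subset.trans hC1L, hbig, by omega⟩
          have hlt : (C \ C1).card < C.card := by
            refine Finset.card_lt_card (Finset.ssubset_iff_subset_ne.mpr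
              ⟨Finset.sdiff_subset, fun h => ?_⟩)
            rw [← h] at hx0a
            exact (Finset.mem_sdiff.mp hx0a).2 hx0b
          have hnc2 : ¬ Crit F d U L (C \ C1) := by
            intro hcr2
            obtain ⟨v, hv, hvO⟩ := ih _ (by omega) (C \ C1) rfl hcr2
            exact hno' v hvO (Finset.mem_sdiff.mp hv).1
          have hsm : 2 * (C \ C1).card < d := by
            by_contra hge
            exact hnc2 ⟨Finset.sdiff_subset.trans hcr.1, by omega, by omega⟩
          have hone : (C \ C1).card ≤ 1 := by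
            by_contra hge
            have h5 := small2 G F d U L E (C \ C1) (Finset.sdiff_subset.trans hcr.1) hd
              (by omega) hsm
            omega
          have e1 := Finset.card_sdiff_add_card_inter C C1
          have e2 := Finset.card_sdiff_add_card_inter C1 C
          rw [Finset.inter_comm C1 C] at e2
          omega
    intro C hC
    exact key C.card C rfl hC

end

end Pool.Agent.Work.MP_db9399_sc.helper59
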